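import Pool.Agent.Helper86.Stationary.Proof

open Set MeasureTheory Filter Topology

namespace Pool.Agent.Results.MP_7009f9_gt.EmbeddedAnnulus

open Pool.Agent.Helper86.Stationary

/-- There is a properly embedded complete stationary surface in `ℝ⁴₁`, parametrized by a
connected open set `U` of the plane homeomorphic to a compact surface with exactly two points
removed, whose total Gaussian curvature `∫ |K| dM` is infinite. -/
theorem result : ∃ (U : Set (ℝ × ℝ)) (x : ℝ × ℝ → Fin 4 → ℝ),
    IsStationary U x ∧ IsCompactMinus U 2 ∧ U.InjOn x ∧ IsProperMap (fun p : U => x p) ∧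
      IsMetricComplete U x ∧ totalAbsCurvature U x = ⊤ := by
  refine ⟨U0, X, ⟨isOpen_U0, isConnected_U0, contDiffOn_X, ?_, fun p hp => meanCurvature_X hp⟩,
    isCompactMinus_U0, injOn_X, isProperMap_X, isMetricComplete_X, totalAbsCurvature_X⟩
  intro p hp v hv
  rw [firstForm_X hp]
  exact mul_pos (lam_pos hp) (q_pos (p := v) hv)

end Pool.Agent.Results.MP_7009f9_gt.EmbeddedAnnulus
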